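import Pool.Agent.U409.OA.Stm3

/-! Project OA (leader helper409), package TAU: the sum `Tn n` as a sum over `0 ≤ s ≤ 2 n + 1`.
The exponents `1, 2, 4, 5, …` are the absolute values of `l_s = 3 s - 3 n - 2`, `0 ≤ s ≤ 2 n + 1`; hence the product of the
differences of the squares is a product of `l_s - l_t` and of `l_s + l_t`, both products of arithmetic progressions. -/

set_option autoImplicit false

namespace Pool.Agent.U857.OA

open Finset Pool.Agent.U409.OA

/-- the position of `|l_s|` in the list of the exponents -/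
def phi (n : ℕ) (s : Fin (2 * n + 2)) : Fin (2 * n + 2) :=
  if n + 1 ≤ (s : ℕ) then ⟨2 * ((s : ℕ) - n - 1), by have := s.2; omega⟩
  else ⟨2 * (n - (s : ℕ)) + 1, by have := s.2; omega⟩

theorem phi_inj (n : ℕ) : Function.Injective (phi n) := by
  intro s t h
  have hs := s.2
  have ht := t.2
  unfold phi at h
  split_ifs at h with h1 h2 h2 <;> simp only [Fin.mk.injEq] at h <;> apply Fin.ext <;> omega

theorem ex_phi (n : ℕ) (s : Fin (2 * n + 2)) :
    ((ex (phi n s : ℕ) : ℤ) = 3 * (s : ℕ) - 3 * n - 2 ∨ (ex (phi n s : ℕ) : ℤ) = -(3 * (s : ℕ) - 3 * n - 2)) := by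
  have hs := s.2
  unfold phi ex
  split_ifs with h1
  · left
    simp only []
    omega
  · right
    simp only []
    omega

theorem ex_sq (n : ℕ) (s : Fin (2 * n + 2)) :
    (ex (phi n s : ℕ) : ℚ) ^ 2 = (3 * ((s : ℕ) : ℚ) - 3 * n - 2) ^ 2 := by
  have h := ex_phi n s
  have h2 : ((ex (phi n s : ℕ) : ℤ)) ^ 2 = (3 * (s : ℕ) - 3 * n - 2) ^ 2 := by
    rcases h with h | h <;> rw [h] <;> ring
  exact_mod_cast h2

theorem ex_sign (n : ℕ) (s : Fin (2 * n + 2)) :
    (-1 : ℚ) ^ (ex (phi n s : ℕ)) = (-1) ^ ((s : ℕ) + n) := by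
  have h := ex_phi n s
  have h3 : ex (phi n s : ℕ) % 2 = ((s : ℕ) + n) % 2 := by
    rcases h with h | h <;> omega
  rw [neg_one_pow_eq_pow_mod_two, h3, ← neg_one_pow_eq_pow_mod_two]

theorem prodA0 (s : ℕ) : ∏ t ∈ range s, ((s : ℚ) - t) = (s.factorial : ℚ) := by
  induction s with
  | zero => simp
  | succ s ih =>
    rw [prod_range_succ', Nat.factorial_succ, ← prod_congr rfl fun t _ => ?_, ih]
    · push_cast
      ring
    · push_cast
      ring

theorem prodA (s r : ℕ) : ∏ t ∈ (range (s + r + 1)).erase s, ((s : ℚ) - t) =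
    (s.factorial : ℚ) * ((-1) ^ r * (r.factorial : ℚ)) := by
  induction r with
  | zero =>
    have : (range (s + 0 + 1)).erase s = range s := by
      ext t
      simp only [mem_erase, mem_range]
      omega
    rw [this, prodA0]
    simp
  | succ r ih =>
    have h : (range (s + (r + 1) + 1)).erase s = insert (s + r + 1) ((range (s + r + 1)).erase s) := by
      ext t
      simp only [mem_erase, mem_range, mem_insert]
      omega
    have hn : s + r + 1 ∉ (range (s + r + 1)).erase s := by simp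
    rw [h, prod_insert hn, ih, Nat.factorial_succ]
    push_cast
    ring

theorem prodB1 (r : ℕ) : ∏ t ∈ range (r + 1), (3 * ((t : ℚ) - r) - 1) =
    (-1) ^ (r + 1) * 3 ^ r * PP (4 / 3) r := by
  induction r with
  | zero => simp [PP]
  | succ r ih =>
    have h2 : PP (4 / 3) (r + 1) = PP (4 / 3) r * (4 / 3 + r) := by
      unfold PP
      rw [prod_range_succ]
    have h1 : ∏ t ∈ range (r + 1), (3 * (((t + 1 : ℕ) : ℚ) - ((r + 1 : ℕ) : ℚ)) - 1) =
        ∏ t ∈ range (r + 1), (3 * ((t : ℚ) - r) - 1) := by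
      refine prod_congr rfl fun t _ => ?_
      push_cast
      ring
    rw [prod_range_succ', h1, ih, h2]
    push_cast
    ring

theorem prodB2 (s : ℕ) : ∏ i ∈ range s, (3 * (i : ℚ) + 2) = 3 ^ s * PP (2 / 3) s := by
  induction s with
  | zero => simp [PP]
  | succ s ih =>
    have h2 : PP (2 / 3) (s + 1) = PP (2 / 3) s * (2 / 3 + s) := by
      unfold PP
      rw [prod_range_succ]
    rw [prod_range_succ, ih, h2]
    ring

theorem prodB (s r : ℕ) : ∏ t ∈ range (s + r + 1), (3 * ((t : ℚ) - r) - 1) =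
    (-1) ^ (r + 1) * 3 ^ (s + r) * PP (2 / 3) s * PP (4 / 3) r := by
  have e : s + r + 1 = (r + 1) + s := by ring
  rw [e, prod_range_add, prodB1]
  have h1 : ∏ i ∈ range s, (3 * (((r + 1 + i : ℕ) : ℚ) - r) - 1) = ∏ i ∈ range s, (3 * (i : ℚ) + 2) := by
    refine prod_congr rfl fun t _ => ?_
    push_cast
    ring
  rw [h1, prodB2]
  ring

/-- the product of the differences of the squares -/
theorem prodC (n s r : ℕ) (h : s + r = 2 * n + 1) :
    (∏ t ∈ (range (2 * n + 2)).erase s,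
      ((3 * (s : ℚ) - 3 * n - 2) ^ 2 - (3 * (t : ℚ) - 3 * n - 2) ^ 2)) * (2 * (3 * (s : ℚ) - 3 * n - 2)) =
    -(9 ^ (2 * n + 1) * (s.factorial : ℚ) * (r.factorial : ℚ) * PP (2 / 3) s * PP (4 / 3) r) := by
  have hn : 2 * n + 2 = s + r + 1 := by omega
  have hq : (s : ℚ) + r = 2 * n + 1 := by exact_mod_cast h
  have hcard : ((range (s + r + 1)).erase s).card = s + r := by
    rw [card_erase_of_mem (by simp), card_range]
    rfl
  have h1 : ∏ t ∈ (range (2 * n + 2)).erase s,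
      ((3 * (s : ℚ) - 3 * n - 2) ^ 2 - (3 * (t : ℚ) - 3 * n - 2) ^ 2) =
      (∏ t ∈ (range (s + r + 1)).erase s, (3 * ((s : ℚ) - t))) *
        ∏ t ∈ (range (s + r + 1)).erase s, (3 * ((t : ℚ) - r) - 1) := by
    rw [hn, ← prod_mul_distrib]
    refine prod_congr rfl fun t _ => ?_
    have hr : (r : ℚ) = 2 * n + 1 - s := by linarith
    rw [hr]
    ring
  have h2 : (∏ t ∈ (range (s + r + 1)).erase s, (3 * ((t : ℚ) - r) - 1)) * (2 * (3 * (s : ℚ) - 3 * n - 2)) =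
      ∏ t ∈ range (s + r + 1), (3 * ((t : ℚ) - r) - 1) := by
    rw [← prod_erase_mul (range (s + r + 1)) _ (a := s) (by simp)]
    congr 1
    have hr : (r : ℚ) = 2 * n + 1 - s := by linarith
    rw [hr]
    ring
  rw [h1, mul_assoc, h2, prodB, prod_mul_distrib, prod_const, hcard, prodA, ← h]
  have h9 : (9 : ℚ) ^ (s + r) = 3 ^ (s + r) * 3 ^ (s + r) := by
    rw [← mul_pow]
    norm_num
  have hs1 : ((-1 : ℚ) ^ r) * (-1) ^ (r + 1) = -1 := by
    rw [← pow_add, show r + (r + 1) = 2 * r + 1 by ring, pow_succ, pow_mul]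
    norm_num
  rw [h9]
  linear_combination (3 ^ (s + r) * 3 ^ (s + r) * (s.factorial : ℚ) * (r.factorial : ℚ) *
    PP (2 / 3) s * PP (4 / 3) r) * hs1

theorem PP_pos (a : ℚ) (ha : 0 < a) (k : ℕ) : 0 < PP a k := by
  unfold PP
  exact prod_pos fun i _ => by positivity

theorem term (n s : ℕ) (hs : s < 2 * n + 2) :
    (-1 : ℚ) ^ (s + n) / ∏ t ∈ (range (2 * n + 2)).erase s,
      ((3 * (s : ℚ) - 3 * n - 2) ^ 2 - (3 * (t : ℚ) - 3 * n - 2) ^ 2) =
    3 * (-1) ^ n / 9 ^ (2 * n + 1) * ((-1) ^ (2 * n + 1 - s) * (2 * s - (2 * n + 1) - 1 / 3) /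
      ((s.factorial : ℚ) * ((2 * n + 1 - s).factorial : ℚ) * PP (2 / 3) s * PP (4 / 3) (2 * n + 1 - s))) := by
  obtain ⟨r, hr⟩ : ∃ r, r = 2 * n + 1 - s := ⟨_, rfl⟩
  have h : s + r = 2 * n + 1 := by omega
  have hC := prodC n s r h
  have hp1 := PP_pos (2 / 3) (by norm_num) s
  have hp2 := PP_pos (4 / 3) (by norm_num) r
  have hf1 : (0 : ℚ) < s.factorial := by exact_mod_cast s.factorial_pos
  have hf2 : (0 : ℚ) < r.factorial := by exact_mod_cast r.factorial_pos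
  have hsg : (-1 : ℚ) ^ s * (-1) ^ r = -1 := by
    rw [← pow_add, h, pow_succ, pow_mul]
    norm_num
  have hsg2 : (-1 : ℚ) ^ r * (-1) ^ r = 1 := by
    rw [← mul_pow]
    norm_num
  have hsr : (-1 : ℚ) ^ s = -(-1) ^ r := by
    linear_combination (-1 : ℚ) ^ r * hsg - (-1) ^ s * hsg2
  rw [← hr]
  generalize (∏ t ∈ (range (2 * n + 2)).erase s,
      ((3 * (s : ℚ) - 3 * n - 2) ^ 2 - (3 * (t : ℚ) - 3 * n - 2) ^ 2)) = Q at hC ⊢
  have hQ : Q ≠ 0 := by
    intro h0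
    rw [h0, zero_mul] at hC
    have : 0 < 9 ^ (2 * n + 1) * (s.factorial : ℚ) * (r.factorial : ℚ) * PP (2 / 3) s * PP (4 / 3) r := by
      positivity
    linarith
  rw [pow_add, hsr]
  have h9 : (9 : ℚ) ^ (2 * n + 1) ≠ 0 := by positivity
  have h1 := hp1.ne'
  have h2 := hp2.ne'
  have h3 := hf1.ne'
  have h4 := hf2.ne'
  rw [div_eq_iff hQ]
  have hD : 9 ^ (2 * n + 1) * (s.factorial : ℚ) * (r.factorial : ℚ) * PP (2 / 3) s * PP (4 / 3) r ≠ 0 := by
    positivity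
  have e1 : 3 * (-1) ^ n / 9 ^ (2 * n + 1) * ((-1) ^ r * (2 * (s : ℚ) - (2 * n + 1) - 1 / 3) /
      ((s.factorial : ℚ) * (r.factorial : ℚ) * PP (2 / 3) s * PP (4 / 3) r)) * Q =
      ((-1) ^ n * (-1) ^ r) * (Q * (2 * (3 * (s : ℚ) - 3 * n - 2))) /
      (9 ^ (2 * n + 1) * (s.factorial : ℚ) * (r.factorial : ℚ) * PP (2 / 3) s * PP (4 / 3) r) := by
    field_simp
    ring
  rw [e1, hC, eq_div_iff hD]
  ring

theorem t_TAU : S_TAU := by
  intro n
  obtain ⟨e, he⟩ : ∃ e : Fin (2 * n + 2) ≃ Fin (2 * n + 2), ∀ s, e s = phi n s :=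
    ⟨Equiv.ofBijective (phi n) (Finite.injective_iff_bijective.1 (phi_inj n)), fun s => rfl⟩
  unfold Tn
  rw [← Equiv.sum_comp e, Finset.sum_range]
  refine sum_congr rfl fun s _ => ?_
  rw [← term n s s.2, he, ex_sign]
  congr 1
  have h1 : ∏ k ∈ univ.erase (phi n s), ((ex (phi n s : ℕ) : ℚ) ^ 2 - (ex (k : ℕ) : ℚ) ^ 2) =
      ∏ t ∈ univ.erase s, ((ex (phi n s : ℕ) : ℚ) ^ 2 - (ex (e t : ℕ) : ℚ) ^ 2) := by
    refine (Finset.prod_equiv e (fun i => ?_) (fun i _ => rfl)).symm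
    simp only [mem_erase, mem_univ, and_true, ← he s]
    exact (e.injective.ne_iff).symm
  rw [h1]
  have h2 : ∏ t ∈ univ.erase s, ((ex (phi n s : ℕ) : ℚ) ^ 2 - (ex (e t : ℕ) : ℚ) ^ 2) =
      ∏ t ∈ univ.erase s, ((3 * ((s : ℕ) : ℚ) - 3 * n - 2) ^ 2 - (3 * ((t : ℕ) : ℚ) - 3 * n - 2) ^ 2) := by
    refine prod_congr rfl fun t _ => ?_
    rw [he, ex_sq, ex_sq]
  rw [h2]
  refine Finset.prod_bij (fun t _ => (t : ℕ)) (fun t ht => ?_) (fun a _ b _ h => Fin.ext h)
    (fun t ht => ?_) (fun t _ => rfl)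
  · simp only [mem_erase, mem_univ, and_true, mem_range] at ht ⊢
    exact ⟨fun h => ht (Fin.ext h), t.2⟩
  · simp only [mem_erase, mem_range] at ht
    exact ⟨⟨t, ht.2⟩, by simp [Fin.ext_iff, ht.1], rfl⟩

end Pool.Agent.U857.OA
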